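import Mathlib

/-!
An assignment by the marriage theorem.
-/

set_option autoImplicit false

namespace Q36.HB

/-- **Assignment.** `p i σ` are the coordinates of the points `σ`; each point different from `σ0`
is killed twice. -/
theorem assign {Λ : Type} [Fintype Λ] [DecidableEq Λ] {n : ℕ} {H : Fin n → Type}
    [∀ i, DecidableEq (H i)] (p : ∀ i, Λ → H i) (σ0 : Λ) (B : Finset (Fin n)) (cap : Fin n → ℕ)
    (hall : ∀ Q : Finset (Fin n), Disjoint Q B →
      2 * (Finset.univ.filter fun σ => σ ≠ σ0 ∧ ∀ i, i ∉ Q → p i σ = p i σ0).card ≤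
        ∑ i ∈ Q, cap i) :
    ∃ (K : ∀ i, Finset (H i)) (μ : ∀ i, H i → ℕ), (∀ i, p i σ0 ∉ K i) ∧
      (∀ i, ∀ x ∈ K i, μ i x = 1 ∨ μ i x = 2) ∧ (∀ i, i ∉ B → ∑ x ∈ K i, μ i x ≤ cap i) ∧
      (∀ i, i ∈ B → K i = (Finset.univ.image (p i)).erase (p i σ0) ∧ ∀ x, μ i x = 2) ∧
      ∀ σ, σ ≠ σ0 → (∃ i, p i σ ∈ K i ∧ μ i (p i σ) = 2) ∨
        ∃ i j, i ≠ j ∧ p i σ ∈ K i ∧ p j σ ∈ K j := by
  classical
  let Tk := {σ : Λ // σ ≠ σ0 ∧ ∀ i ∈ B, p i σ = p i σ0} × Fin 2
  let Sl := (i : Fin n) × Fin (cap i)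
  let t : Tk → Finset Sl := fun x =>
    Finset.univ.filter fun s => s.1 ∉ B ∧ p s.1 x.1.1 ≠ p s.1 σ0
  obtain ⟨f, hf, hft⟩ := (Finset.all_card_le_biUnion_card_iff_exists_injective t).1 (by
    intro s
    let Q : Finset (Fin n) := Finset.univ.filter fun i => i ∉ B ∧ ∃ x ∈ s, p i x.1.1 ≠ p i σ0
    have hQ : Disjoint Q B := by
      rw [Finset.disjoint_left]
      intro i hi hB
      exact (Finset.mem_filter.1 hi).2.1 hB
    have h1 : s.biUnion t = Finset.univ.filter fun y : Sl => y.1 ∈ Q := by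
      ext y
      simp only [Finset.mem_biUnion, t, Finset.mem_filter, Finset.mem_univ, true_and, Q]
      constructor
      · rintro ⟨x, hx, h1, h2⟩
        exact ⟨h1, x, hx, h2⟩
      · rintro ⟨h1, x, hx, h2⟩
        exact ⟨x, hx, h1, h2⟩
    have h2 : (Finset.univ.filter fun y : Sl => y.1 ∈ Q).card = ∑ i ∈ Q, cap i := by
      have e1 : (Finset.univ.filter fun y : Sl => y.1 ∈ Q) =
          Q.sigma fun i => (Finset.univ : Finset (Fin (cap i))) := by
        ext y
        exact ⟨fun h => Finset.mem_sigma.2 ⟨(Finset.mem_filter.1 h).2, Finset.mem_univ _⟩,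
          fun h => Finset.mem_filter.2 ⟨Finset.mem_univ _, (Finset.mem_sigma.1 h).1⟩⟩
      rw [e1, Finset.card_sigma]
      simp
    have h3 : s.card ≤ ((Finset.univ.filter fun σ => σ ≠ σ0 ∧ ∀ i, i ∉ Q →
        p i σ = p i σ0) ×ˢ (Finset.univ : Finset (Fin 2))).card := by
      refine Finset.card_le_card_of_injOn (fun x : Tk => (x.1.1, x.2)) ?_ ?_
      · intro x hx
        rw [Finset.mem_coe] at hx
        simp only [Finset.coe_product, Set.mem_prod, Finset.coe_univ, Set.mem_univ, and_true]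
        refine Finset.mem_coe.2 (Finset.mem_filter.2 ⟨Finset.mem_univ _, x.1.2.1, fun i hi => ?_⟩)
        by_cases hiB : i ∈ B
        · exact x.1.2.2 i hiB
        · by_contra hne
          exact hi (Finset.mem_filter.2 ⟨Finset.mem_univ _, hiB, x, hx, hne⟩)
      · rintro ⟨⟨x, hx⟩, a⟩ _ ⟨⟨y, hy⟩, b⟩ _ h
        simp only [Prod.mk.injEq] at h
        obtain ⟨h1, h2⟩ := h
        subst h1
        subst h2
        rfl
    rw [Finset.card_product, Finset.card_univ, Fintype.card_fin] at h3
    rw [h1, h2]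
    have := hall Q hQ
    omega)
  have hft' : ∀ x, (f x).1 ∉ B ∧ p (f x).1 x.1.1 ≠ p (f x).1 σ0 := fun x =>
    (Finset.mem_filter.1 (hft x)).2
  -- the tokens over a point
  let R : ∀ i, H i → Finset Tk := fun i y =>
    Finset.univ.filter fun x => (f x).1 = i ∧ p i x.1.1 = y
  let K : ∀ i, Finset (H i) := fun i =>
    if i ∈ B then (Finset.univ.image (p i)).erase (p i σ0)
    else (Finset.univ.filter fun x : Tk => (f x).1 = i).image fun x => p i x.1.1
  let μ : ∀ i, H i → ℕ := fun i y => if i ∈ B then 2 else if 2 ≤ (R i y).card then 2 else 1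
  refine ⟨K, μ, fun i => ?_, fun i y _ => ?_, fun i hi => ?_, fun i hi => ?_, fun σ hσ => ?_⟩
  · by_cases hi : i ∈ B
    · simp only [K, if_pos hi]
      exact Finset.notMem_erase _ _
    · simp only [K, if_neg hi]
      intro h
      obtain ⟨x, hx, h1⟩ := Finset.mem_image.1 h
      have h2 := (Finset.mem_filter.1 hx).2
      subst h2
      exact (hft' x).2 h1
  · simp only [μ]
    split_ifs <;> simp
  · simp only [K, if_neg hi]
    have h1 : ∀ y ∈ (Finset.univ.filter fun x : Tk => (f x).1 = i).image fun x => p i x.1.1,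
        μ i y ≤ (R i y).card := by
      intro y hy
      simp only [μ, if_neg hi]
      split_ifs with h
      · exact h
      · obtain ⟨x, hx, h1⟩ := Finset.mem_image.1 hy
        rw [Nat.succ_le_iff, Finset.card_pos]
        exact ⟨x, Finset.mem_filter.2 ⟨Finset.mem_univ _, (Finset.mem_filter.1 hx).2, h1⟩⟩
    refine (Finset.sum_le_sum h1).trans ?_
    have h2 : ∑ y ∈ (Finset.univ.filter fun x : Tk => (f x).1 = i).image fun x => p i x.1.1,
        (R i y).card = (Finset.univ.filter fun x : Tk => (f x).1 = i).card := by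
      rw [Finset.card_eq_sum_card_image (fun x : Tk => p i x.1.1)
        (Finset.univ.filter fun x : Tk => (f x).1 = i)]
      refine Finset.sum_congr rfl fun y _ => ?_
      congr 1
      ext x
      simp only [R, Finset.mem_filter, Finset.mem_univ, true_and]
    rw [h2]
    have h3 : (Finset.univ.filter fun x : Tk => (f x).1 = i).card ≤
        ((Finset.univ.filter fun y : Sl => y.1 = i)).card := by
      refine Finset.card_le_card_of_injOn f ?_ (hf.injOn)
      intro x hx
      rw [Finset.mem_coe] at hx ⊢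
      exact Finset.mem_filter.2 ⟨Finset.mem_univ _, (Finset.mem_filter.1 hx).2⟩
    refine h3.trans ?_
    have e1 : (Finset.univ.filter fun y : Sl => y.1 = i) =
        ({i} : Finset (Fin n)).sigma fun i => (Finset.univ : Finset (Fin (cap i))) := by
      ext y
      exact ⟨fun h => Finset.mem_sigma.2 ⟨Finset.mem_singleton.2 (Finset.mem_filter.1 h).2,
        Finset.mem_univ _⟩, fun h => Finset.mem_filter.2 ⟨Finset.mem_univ _,
        Finset.mem_singleton.1 (Finset.mem_sigma.1 h).1⟩⟩
    rw [e1, Finset.card_sigma]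
    simp
  · exact ⟨if_pos hi, fun x => if_pos hi⟩
  · by_cases hB : ∀ i ∈ B, p i σ = p i σ0
    · let x0 : Tk := (⟨σ, hσ, hB⟩, 0)
      let x1 : Tk := (⟨σ, hσ, hB⟩, 1)
      have hne : x0 ≠ x1 := by
        intro h
        have := congrArg Prod.snd h
        exact absurd this (by simp [x0, x1])
      have hK : ∀ x : Tk, x.1.1 = σ → p (f x).1 σ ∈ K (f x).1 := by
        intro x hx
        simp only [K, if_neg (hft' x).1]
        refine Finset.mem_image.2 ⟨x, Finset.mem_filter.2 ⟨Finset.mem_univ _, rfl⟩, ?_⟩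
        rw [hx]
      by_cases h : (f x0).1 = (f x1).1
      · left
        refine ⟨(f x0).1, hK x0 rfl, ?_⟩
        simp only [μ, if_neg (hft' x0).1]
        rw [if_pos]
        have h1 : ({x0, x1} : Finset Tk) ⊆ R (f x0).1 (p (f x0).1 σ) := by
          intro x hx
          rcases Finset.mem_insert.1 hx with rfl | hx
          · exact Finset.mem_filter.2 ⟨Finset.mem_univ _, rfl, rfl⟩
          · rw [Finset.mem_singleton] at hx
            rw [hx]
            exact Finset.mem_filter.2 ⟨Finset.mem_univ _, h.symm, rfl⟩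
        have h2 := Finset.card_le_card h1
        rwa [Finset.card_pair hne] at h2
      · right
        exact ⟨(f x0).1, (f x1).1, h, hK x0 rfl, hK x1 rfl⟩
    · left
      push Not at hB
      obtain ⟨i, hi, hne⟩ := hB
      refine ⟨i, ?_, ?_⟩
      · simp only [K, if_pos hi]
        exact Finset.mem_erase.2 ⟨hne, Finset.mem_image_of_mem _ (Finset.mem_univ σ)⟩
      · simp only [μ, if_pos hi]

/-- The version in which each point is killed once. -/
theorem assign_one {Λ : Type} [Fintype Λ] [DecidableEq Λ] {n : ℕ} {H : Fin n → Type}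
    [∀ i, DecidableEq (H i)] (p : ∀ i, Λ → H i) (σ0 : Λ) (B : Finset (Fin n)) (cap : Fin n → ℕ)
    (hall : ∀ Q : Finset (Fin n), Disjoint Q B →
      (Finset.univ.filter fun σ => σ ≠ σ0 ∧ ∀ i, i ∉ Q → p i σ = p i σ0).card ≤
        ∑ i ∈ Q, cap i) :
    ∃ K : ∀ i, Finset (H i), (∀ i, p i σ0 ∉ K i) ∧
      (∀ i, i ∉ B → (K i).card ≤ cap i) ∧
      (∀ i, i ∈ B → K i = (Finset.univ.image (p i)).erase (p i σ0)) ∧
      ∀ σ, σ ≠ σ0 → ∃ i, p i σ ∈ K i := by
  classical
  let Tk := {σ : Λ // σ ≠ σ0 ∧ ∀ i ∈ B, p i σ = p i σ0}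
  let Sl := (i : Fin n) × Fin (cap i)
  let t : Tk → Finset Sl := fun x =>
    Finset.univ.filter fun s => s.1 ∉ B ∧ p s.1 x.1 ≠ p s.1 σ0
  obtain ⟨f, hf, hft⟩ := (Finset.all_card_le_biUnion_card_iff_exists_injective t).1 (by
    intro s
    let Q : Finset (Fin n) := Finset.univ.filter fun i => i ∉ B ∧ ∃ x ∈ s, p i x.1 ≠ p i σ0
    have hQ : Disjoint Q B := by
      rw [Finset.disjoint_left]
      intro i hi hB
      exact (Finset.mem_filter.1 hi).2.1 hB
    have h1 : s.biUnion t = Finset.univ.filter fun y : Sl => y.1 ∈ Q := by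
      ext y
      simp only [Finset.mem_biUnion, t, Finset.mem_filter, Finset.mem_univ, true_and, Q]
      constructor
      · rintro ⟨x, hx, h1, h2⟩
        exact ⟨h1, x, hx, h2⟩
      · rintro ⟨h1, x, hx, h2⟩
        exact ⟨x, hx, h1, h2⟩
    have h2 : (Finset.univ.filter fun y : Sl => y.1 ∈ Q).card = ∑ i ∈ Q, cap i := by
      have e1 : (Finset.univ.filter fun y : Sl => y.1 ∈ Q) =
          Q.sigma fun i => (Finset.univ : Finset (Fin (cap i))) := by
        ext y
        exact ⟨fun h => Finset.mem_sigma.2 ⟨(Finset.mem_filter.1 h).2, Finset.mem_univ _⟩,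
          fun h => Finset.mem_filter.2 ⟨Finset.mem_univ _, (Finset.mem_sigma.1 h).1⟩⟩
      rw [e1, Finset.card_sigma]
      simp
    have h3 : s.card ≤ (Finset.univ.filter fun σ => σ ≠ σ0 ∧ ∀ i, i ∉ Q →
        p i σ = p i σ0).card := by
      refine Finset.card_le_card_of_injOn (fun x : Tk => x.1) ?_ ?_
      · intro x hx
        rw [Finset.mem_coe] at hx
        refine Finset.mem_coe.2 (Finset.mem_filter.2 ⟨Finset.mem_univ _, x.2.1, fun i hi => ?_⟩)
        by_cases hiB : i ∈ B
        · exact x.2.2 i hiB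
        · by_contra hne
          exact hi (Finset.mem_filter.2 ⟨Finset.mem_univ _, hiB, x, hx, hne⟩)
      · intro x _ y _ h
        exact Subtype.ext h
    rw [h1, h2]
    exact h3.trans (hall Q hQ))
  have hft' : ∀ x, (f x).1 ∉ B ∧ p (f x).1 x.1 ≠ p (f x).1 σ0 := fun x =>
    (Finset.mem_filter.1 (hft x)).2
  let K : ∀ i, Finset (H i) := fun i =>
    if i ∈ B then (Finset.univ.image (p i)).erase (p i σ0)
    else (Finset.univ.filter fun x : Tk => (f x).1 = i).image fun x => p i x.1
  refine ⟨K, fun i => ?_, fun i hi => ?_, fun i hi => if_pos hi, fun σ hσ => ?_⟩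
  · by_cases hi : i ∈ B
    · simp only [K, if_pos hi]
      exact Finset.notMem_erase _ _
    · simp only [K, if_neg hi]
      intro h
      obtain ⟨x, hx, h1⟩ := Finset.mem_image.1 h
      have h2 := (Finset.mem_filter.1 hx).2
      subst h2
      exact (hft' x).2 h1
  · simp only [K, if_neg hi]
    refine Finset.card_image_le.trans ?_
    have h3 : (Finset.univ.filter fun x : Tk => (f x).1 = i).card ≤
        ((Finset.univ.filter fun y : Sl => y.1 = i)).card := by
      refine Finset.card_le_card_of_injOn f ?_ (hf.injOn)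
      intro x hx
      rw [Finset.mem_coe] at hx ⊢
      exact Finset.mem_filter.2 ⟨Finset.mem_univ _, (Finset.mem_filter.1 hx).2⟩
    refine h3.trans ?_
    have e1 : (Finset.univ.filter fun y : Sl => y.1 = i) =
        ({i} : Finset (Fin n)).sigma fun i => (Finset.univ : Finset (Fin (cap i))) := by
      ext y
      exact ⟨fun h => Finset.mem_sigma.2 ⟨Finset.mem_singleton.2 (Finset.mem_filter.1 h).2,
        Finset.mem_univ _⟩, fun h => Finset.mem_filter.2 ⟨Finset.mem_univ _,
        Finset.mem_singleton.1 (Finset.mem_sigma.1 h).1⟩⟩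
    rw [e1, Finset.card_sigma]
    simp
  · by_cases hB : ∀ i ∈ B, p i σ = p i σ0
    · let x0 : Tk := ⟨σ, hσ, hB⟩
      refine ⟨(f x0).1, ?_⟩
      simp only [K, if_neg (hft' x0).1]
      exact Finset.mem_image.2 ⟨x0, Finset.mem_filter.2 ⟨Finset.mem_univ _, rfl⟩, rfl⟩
    · push Not at hB
      obtain ⟨i, hi, hne⟩ := hB
      refine ⟨i, ?_⟩
      simp only [K, if_pos hi]
      exact Finset.mem_erase.2 ⟨hne, Finset.mem_image_of_mem _ (Finset.mem_univ σ)⟩

end Q36.HB
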