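import Pool.Agent.Q36.SD.Ma
import Pool.Agent.W619.PQ.Dual

/-!
Algebraically independent elements from derivations.
-/

set_option autoImplicit false
set_option linter.overlappingInstances false
set_option linter.unusedSectionVars false

open Polynomial FF IsDedekindDomain IntermediateField
open Pool.Agent.W603.LV Pool.Agent.W619.PQ Pool.Agent.W619.TW Q36.SD

namespace Q36.HB

section

variable {k L M : Type} [Field k] [CharZero k] [Field L] [Field M]
  [Algebra k L] [Algebra k M] [Algebra L M] [IsScalarTower k L M] [FiniteDimensional L M] {n : ℕ}

theorem exists_indep (hn : Algebra.trdeg k L = n) (A : Set L) {t : Fin n → M}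
    (ht : IsTranscendenceBasis k t) (H : Finset (Fin n))
    (h : ∀ (d : Derivation k L L) (d' : Derivation k M M),
      (∀ f, d' (algebraMap L M f) = algebraMap L M (d f)) → (∀ x ∈ A, d x = 0) →
      ∀ i ∈ H, d' (t i) = 0) :
    ∃ x : Fin H.card → L, (∀ l, x l ∈ A) ∧ AlgebraicIndependent k x := by
  classical
  have h0 : AlgebraicIndepOn k id (∅ : Set L) :=
    (algebraicIndependent_empty_iff ..).mpr (algebraMap k L).injective
  obtain ⟨u, -, hu⟩ := exists_maximal_algebraicIndependent (R := k) (∅ : Set L) A
    (Set.empty_subset _) h0
  obtain ⟨s, hus, hs⟩ := exists_isTranscendenceBasis_superset hu.prop.1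
  have h1 := hs.cardinalMk_eq_trdeg
  rw [hn] at h1
  have h2 : Cardinal.lift.{0} (Cardinal.mk s) = Cardinal.lift.{0} (Cardinal.mk (Fin n)) := by
    rw [h1]
    simp
  obtain ⟨e⟩ := Cardinal.lift_mk_eq'.1 h2
  have hsfin : Finite s := Finite.of_equiv _ e.symm
  have hsf : s.Finite := Set.toFinite s
  have huf : u.Finite := hsf.subset hus
  -- `u` is large
  have hcard : H.card ≤ huf.toFinset.card := by
    by_contra hcon
    push Not at hcon
    -- the dual derivations
    choose E hE using fun a : s => Pool.Agent.W619.PQ.exists_dual (fun i : s => (i : L)) hs a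
    choose E' hE' using fun a : s => Pool.Agent.Y172.exists_lift (L := M) hn (E a)
    let y : Fin n → L := fun b => (e.symm b : L)
    have hdual : ∀ a b : Fin n, E' (e.symm a) (algebraMap L M (y b)) = if a = b then 1 else 0 := by
      intro a b
      rw [hE']
      have h3 := hE (e.symm a) (e.symm b)
      change algebraMap L M (E (e.symm a) (e.symm b : L)) = _
      rw [h3]
      by_cases hab : a = b
      · rw [if_pos hab, hab]
        simp
      · rw [if_neg hab]
        have : e.symm b ≠ e.symm a := fun h => hab (e.symm.injective h).symm
        simp [this]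
    have hT := jac_ne ht (E' := fun a => E' (e.symm a)) hdual
    -- the derivations which kill `A`
    have hkill : ∀ a : s, (a : L) ∉ u → ∀ x ∈ A, E a x = 0 := by
      intro a ha x hx
      have hEu : ∀ z ∈ u, E a z = 0 := by
        intro z hz
        have h3 := hE a ⟨z, hus hz⟩
        change E a z = _ at h3
        rw [h3]
        have : (⟨z, hus hz⟩ : s) ≠ a := by
          rintro rfl
          exact ha hz
        simp [this]
      by_cases hxu : x ∈ u
      · exact hEu x hxu
      · have h4 : ¬ AlgebraicIndepOn k id (insert x u) := by
          intro h5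
          exact hxu (hu.le_of_ge ⟨h5, Set.insert_subset hx hu.prop.2⟩ (Set.subset_insert x u)
            (Set.mem_insert x u))
        have h5 : IsAlgebraic (Algebra.adjoin k u) x := by
          by_contra h6
          apply h4
          rw [AlgebraicIndepOn.insert_iff hxu]
          refine ⟨hu.prop.1, ?_⟩
          rw [Set.image_id]
          exact h6
        have hEadj : ∀ z ∈ IntermediateField.adjoin k u, E a z = 0 := by
          have h7 : IntermediateField.adjoin k u ≤ kerD (E a) := by
            rw [IntermediateField.adjoin_le_iff]
            exact fun z hz => hEu z hz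
          exact fun z hz => h7 hz
        refine der_alg (IntermediateField.adjoin k u) (E a) hEadj ?_
        have h8 : Algebra.adjoin k u ≤ (IntermediateField.adjoin k u).toSubalgebra :=
          IntermediateField.algebra_adjoin_le_adjoin k u
        let f : Algebra.adjoin k u →+* IntermediateField.adjoin k u :=
          (Subalgebra.inclusion h8 : _ →+* _)
        exact h5.ringHom_of_comp_eq f (RingHom.id L)
          (Subalgebra.inclusion_injective h8) (by ext z; rfl)
    have hzero : ∀ a : Fin n, ((e.symm a : s) : L) ∉ u → ∀ i ∈ H, E' (e.symm a) (t i) = 0 :=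
      fun a ha => h (E (e.symm a)) (E' (e.symm a)) (hE' _) (hkill _ ha)
    -- linear algebra
    let U := {a : Fin n // ((e.symm a : s) : L) ∈ u}
    let φ : (H → M) →ₗ[M] (U → M) :=
      { toFun := fun v a => ∑ i : H, E' (e.symm a.1) (t i) * v i
        map_add' := by
          intro v w
          funext a
          simp only [Pi.add_apply, mul_add, Finset.sum_add_distrib]
        map_smul' := by
          intro c v
          funext a
          simp only [Pi.smul_apply, smul_eq_mul, RingHom.id_apply, Finset.mul_sum]
          refine Finset.sum_congr rfl fun i _ => ?_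
          ring }
    have hUc : Fintype.card U ≤ huf.toFinset.card := by
      have h3 : Fintype.card U = (Finset.univ : Finset U).card := rfl
      rw [h3]
      refine Finset.card_le_card_of_injOn (fun a : U => ((e.symm a.1 : s) : L)) ?_ ?_
      · intro a _
        exact Finset.mem_coe.2 (huf.mem_toFinset.2 a.2)
      · intro a _ b _ hab
        apply Subtype.ext
        exact e.symm.injective (Subtype.ext hab)
    have hker : LinearMap.ker φ ≠ ⊥ := by
      refine LinearMap.ker_ne_bot_of_finrank_lt ?_
      rw [Module.finrank_fintype_fun_eq_card, Module.finrank_fintype_fun_eq_card,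
        Fintype.card_coe]
      omega
    obtain ⟨v, hv, hv0⟩ := (Submodule.ne_bot_iff _).1 hker
    let w : Fin n → M := fun i => if hi : i ∈ H then v ⟨i, hi⟩ else 0
    apply hT
    rw [← Matrix.exists_mulVec_eq_zero_iff]
    refine ⟨w, ?_, ?_⟩
    · intro hw
      apply hv0
      funext i
      have h3 := congrFun hw i.1
      simp only [w, i.2, dif_pos] at h3
      exact h3
    · funext a
      change ∑ i, E' (e.symm a) (t i) * w i = 0
      by_cases ha : ((e.symm a : s) : L) ∈ u
      · have h3 := congrFun (LinearMap.mem_ker.1 hv) ⟨a, ha⟩
        change ∑ i : H, E' (e.symm a) (t i) * v i = 0 at h3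
        rw [← h3]
        symm
        rw [Finset.sum_coe_sort_eq_attach]
        have h4 : ∀ i : Fin n, E' (e.symm a) (t i) * w i =
            if hi : i ∈ H then E' (e.symm a) (t i) * v ⟨i, hi⟩ else 0 := by
          intro i
          simp only [w]
          split_ifs
          · rfl
          · rw [mul_zero]
        rw [Finset.sum_congr rfl fun i _ => h4 i]
        rw [← Finset.sum_subset (Finset.subset_univ H) (fun i _ hi => dif_neg hi)]
        rw [← Finset.sum_attach H]
        refine Finset.sum_congr rfl fun i _ => ?_
        rw [dif_pos i.2]
      · refine Finset.sum_eq_zero fun i _ => ?_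
        by_cases hi : i ∈ H
        · rw [hzero a ha i hi, zero_mul]
        · simp only [w, dif_neg hi, mul_zero]
  -- choose the elements
  have h3 : H.card ≤ Fintype.card huf.toFinset := by
    rw [Fintype.card_coe]
    exact hcard
  obtain ⟨g⟩ : Nonempty (Fin H.card ↪ huf.toFinset) :=
    Function.Embedding.nonempty_of_card_le (by rw [Fintype.card_fin]; exact h3)
  have hg : ∀ l, ((g l : huf.toFinset) : L) ∈ u := fun l => huf.mem_toFinset.1 (g l).2
  refine ⟨fun l => (g l : L), fun l => hu.prop.2 (hg l), ?_⟩
  have h4 : AlgebraicIndependent k (fun x : u => (x : L)) := hu.prop.1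
  exact h4.comp (fun l : Fin H.card => (⟨(g l : L), hg l⟩ : u)) (by
    intro a b hab
    apply g.injective
    apply Subtype.ext
    exact congrArg (fun z : u => (z : L)) hab)

end

end Q36.HB
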