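import Pool.Agent.Q36.HB.De
import Pool.Agent.Q36.HB.Rk
import Pool.Agent.Q36.SD.To

/-!
The canonical image of varieties dominated by products of curves.
-/

set_option autoImplicit false
set_option linter.overlappingInstances false
set_option linter.unusedSectionVars false

open Polynomial FF IsDedekindDomain IntermediateField
open Pool.Agent.W602.GT Pool.Agent.W603.LV Pool.Agent.W619.PQ Pool.Agent.W619.PL
  Pool.Agent.W619.TW Pool.Agent.W619.X Pool.Agent.W619.Y Q36.PT Q36.SD

namespace Q36.HB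

theorem ess_up (k L M : Type) [Field k] [Field L] [Field M] [Algebra k L] [Algebra k M]
    [Algebra L M] [IsScalarTower k L M] [FiniteDimensional L M] [Algebra.EssFiniteType k L] :
    Algebra.EssFiniteType k M :=
  Algebra.EssFiniteType.comp k L M

section

variable {k L M : Type} [Field k] [CharZero k] [IsAlgClosed k] [Field L] [Field M]
  [Algebra k L] [Algebra k M] [Algebra L M] [IsScalarTower k L M] [FiniteDimensional L M]
  [Algebra.EssFiniteType k L] {n : ℕ} (F : Fin n → IntermediateField k M)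
  [hF : ∀ i, IsFF k (F i)]

/-- **The geometric genus is positive** under Hall's condition. -/
theorem genus_hall (hnM : Algebra.trdeg k M = n) (halg : Algebra.IsAlgebraic ↥(⨆ i, F i) M)
    {γ : Fin n → ℕ} (hγ2 : ∀ i, 2 ≤ γ i)
    (hγ : ∀ i, ∀ b : F i, Transcendental k b → γ i ≤ Module.finrank k⟮b⟯ (F i))
    (B : Finset (Fin n))
    (hB : ∀ i ∈ B, Module.finrank L (IntermediateField.adjoin L (F i : Set M)) < γ i)
    (hQ : ∀ Q : Finset (Fin n), Disjoint Q B →
      Module.finrank (IntermediateField.adjoin L {z : M | ∃ j, j ∉ Q ∧ z ∈ F j}) M ≤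
        1 + ∑ j ∈ Q, (γ j - 2)) : PlurigenusPos k L n 1 := by
  classical
  by_contra hneg
  have hpg := pgZero_iff.2 hneg
  have hessM : Algebra.EssFiniteType k M := ess_up k L M
  have hn : Algebra.trdeg k L = n := trdeg_below (K := M) hnM
  obtain ⟨y, E, hy, hE⟩ := Pool.Agent.Y172.exists_crd (k := k) (K := L) hn
  choose E' hE' using fun i => Pool.Agent.Y172.exists_lift (L := M) hn (E i)
  have hEd := Pool.Agent.Y172.lift_dual hE hE'
  choose t ht using fun i => IsFF.exists_transcendental (k := k) (K := F i)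
  have hbt : IsTranscendenceBasis k (fun i => (t i : M)) := basis_of_alg F halg hnM t ht
  let D0 : ∀ i, Derivation k (F i) (F i) := fun i => der k (F i)
  have hD0 : ∀ i, D0 i ≠ 0 := fun i => der_ne
  have hD0t : ∀ i, D0 i (t i) ≠ 0 := fun i => der_ne_zero (hD0 i) (ht i)
  have hD0tM : ∀ i, ((D0 i (t i) : F i) : M) ≠ 0 := fun i h => hD0t i (Subtype.ext h)
  let T : Matrix (Fin n) (Fin n) M := Matrix.of fun a b => E' a (t b : M)
  have hT : T.det ≠ 0 := jac_ne hbt hEd
  let J : M := (∏ i, ((D0 i (t i) : F i) : M))⁻¹ * T.det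
  have hJ : J ≠ 0 :=
    mul_ne_zero (inv_ne_zero (Finset.prod_ne_zero_iff.2 fun i _ => hD0tM i)) hT
  have hrel : ∀ f : ∀ i, F i, (∀ i, RegDiff (D0 i) (f i)) →
      Algebra.trace L M (J * ∏ i, (f i : M)) = 0 := fun f hf => by
    rw [← trace_rel F hn hpg hD0 ht hf E E' hE']
    congr 1
    unfold wedge
    rw [Finset.prod_div_distrib]
    change (∏ i, ((D0 i (t i) : F i) : M))⁻¹ * T.det * _ = _ * T.det
    rw [div_eq_mul_inv]
    ring
  exact hJ (elim_hall_one F hγ2 hγ B hB hQ hD0 J hrel)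

/-- **The dimension of the canonical image.** -/
theorem image_hall (hnM : Algebra.trdeg k M = n) (halg : Algebra.IsAlgebraic ↥(⨆ i, F i) M)
    {γ : Fin n → ℕ} (hγ2 : ∀ i, 2 ≤ γ i)
    (hγ : ∀ i, ∀ b : F i, Transcendental k b → γ i ≤ Module.finrank k⟮b⟯ (F i))
    (B : Finset (Fin n))
    (hB : ∀ i ∈ B, 2 * Module.finrank L (IntermediateField.adjoin L (F i : Set M)) < γ i)
    (hQ : ∀ Q : Finset (Fin n), Disjoint Q B →
      Module.finrank (IntermediateField.adjoin L {z : M | ∃ j, j ∉ Q ∧ z ∈ F j}) M = 1 ∨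
      2 * Module.finrank (IntermediateField.adjoin L {z : M | ∃ j, j ∉ Q ∧ z ∈ F j}) M ≤
        1 + ∑ j ∈ Q, (γ j - 2)) :
    ImageGe k L n (fun _ => False) 1 (Finset.univ.filter fun i => 0 < canDeg k (F i)).card := by
  classical
  have hessM : Algebra.EssFiniteType k M := ess_up k L M
  have hn : Algebra.trdeg k L = n := trdeg_below (K := M) hnM
  obtain ⟨y, E, hy, hE⟩ := Pool.Agent.Y172.exists_crd (k := k) (K := L) hn
  choose E' hE' using fun i => Pool.Agent.Y172.exists_lift (L := M) hn (E i)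
  have hEd := Pool.Agent.Y172.lift_dual hE hE'
  choose t ht using fun i => IsFF.exists_transcendental (k := k) (K := F i)
  have hbt : IsTranscendenceBasis k (fun i => (t i : M)) := basis_of_alg F halg hnM t ht
  let D0 : ∀ i, Derivation k (F i) (F i) := fun i => der k (F i)
  have hD0 : ∀ i, D0 i ≠ 0 := fun i => der_ne
  have hD0t : ∀ i, D0 i (t i) ≠ 0 := fun i => der_ne_zero (hD0 i) (ht i)
  have hD0tM : ∀ i, ((D0 i (t i) : F i) : M) ≠ 0 := fun i h => hD0t i (Subtype.ext h)
  let T : Matrix (Fin n) (Fin n) M := Matrix.of fun a b => E' a (t b : M)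
  have hT : T.det ≠ 0 := jac_ne hbt hEd
  let J : M := (∏ i, ((D0 i (t i) : F i) : M))⁻¹ * T.det
  have hJ : J ≠ 0 :=
    mul_ne_zero (inv_ne_zero (Finset.prod_ne_zero_iff.2 fun i _ => hD0tM i)) hT
  -- the forms
  have hform : ∀ f : ∀ i, F i, ∃ ω : (Fin n → Derivation k L L) → L,
      (∀ i, RegDiff (D0 i) (f i)) → (IsSec k L n (fun _ => False) {1} 1 0 ω ∧
      ω E = Algebra.trace L M (J * ∏ i, (f i : M))) := by
    intro f
    by_cases hf : ∀ i, RegDiff (D0 i) (f i)
    · obtain ⟨ω, h1, h2, h3⟩ := trace_pluri (K := L) hn (wedge F D0 t f) (wedge_pluri F D0 t f)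
        (fun Q _ => wedge_reg F hD0 ht hf Q)
      refine ⟨ω, fun _ => ⟨⟨h1, fun v hv _ D hD => ?_, fun v _ hB => absurd hB id⟩, ?_⟩⟩
      · exact Pool.Agent.W303.PG.dom_of_reg (h2 v hv D hD)
      · rw [h3 E E' hE']
        congr 1
        unfold wedge
        rw [Finset.prod_div_distrib]
        change _ * T.det = (∏ i, ((D0 i (t i) : F i) : M))⁻¹ * T.det * _
        rw [div_eq_mul_inv]
        ring
    · exact ⟨fun _ => 0, fun h => absurd h hf⟩
  choose ω hω using hform
  -- a nonzero form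
  obtain ⟨f0, hf0, hG0⟩ : ∃ f : ∀ i, F i, (∀ i, RegDiff (D0 i) (f i)) ∧
      Algebra.trace L M (J * ∏ i, (f i : M)) ≠ 0 := by
    by_contra hcon
    push Not at hcon
    refine hJ (elim_hall_one F hγ2 hγ B (fun i hi => ?_) (fun Q hQB => ?_) hD0 J hcon)
    · have := hB i hi
      omega
    · rcases hQ Q hQB with h | h <;> omega
  set G0 := Algebra.trace L M (J * ∏ i, (f0 i : M)) with hG0e
  let A : Set L := {x | ∃ f : ∀ i, F i, (∀ i, RegDiff (D0 i) (f i)) ∧
    x = Algebra.trace L M (J * ∏ i, (f i : M)) / G0}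
  obtain ⟨x, hxA, hx⟩ := exists_indep hn A hbt
    (Finset.univ.filter fun i => 0 < canDeg k (F i)) (by
    intro d d' hd hA i hi
    have hchar : CharZero L := charZero_of_injective_algebraMap (algebraMap k L).injective
    have hΩ := AlgHom.card L M (AlgebraicClosure M)
    have hpos : 0 < Module.finrank L M := Module.finrank_pos
    obtain ⟨σ0⟩ : Nonempty (M →ₐ[L] AlgebraicClosure M) :=
      Fintype.card_pos_iff.1 (by rw [hΩ]; exact hpos)
    have h1 := elim_hall F hγ2 hγ B hB hQ hD0 (Ω := AlgebraicClosure M)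
      (fun σ => σ (d' J - algebraMap L M (d G0 / G0) * J))
      (fun i σ => σ (J * (d' (t i : M) / ((D0 i (t i) : F i) : M))))
      (fun f hf => by
        refine relation F ht hD0t J d d' hd (d G0 / G0) ?_
        have h2 := hA _ ⟨f, hf, rfl⟩
        have h3 : d (Algebra.trace L M (J * ∏ i, (f i : M)) / G0 * G0) =
            d (Algebra.trace L M (J * ∏ i, (f i : M))) := by
          rw [div_mul_cancel₀ _ hG0]
        rw [d.leibniz, h2, smul_zero, add_zero, smul_eq_mul] at h3
        rw [← h3]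
        ring) i (Finset.mem_filter.1 hi).2 σ0
    have h2 := (map_eq_zero σ0).1 h1
    have h3 := (mul_eq_zero.1 h2).resolve_left hJ
    exact (div_eq_zero_iff.1 h3).resolve_right (hD0tM i))
  choose f hf hxf using hxA
  have hne : ∀ l, Algebra.trace L M (J * ∏ i, (f l i : M)) ≠ 0 := by
    intro l h0
    have h1 := hx.transcendental l
    rw [hxf l, h0, zero_div] at h1
    exact h1 isAlgebraic_zero
  refine ⟨Fin.cons (ω f0) fun l => ω (f l), fun l => ?_, E, fun l => ?_, ?_⟩
  · refine Fin.cases ?_ (fun l => ?_) l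
    · rw [Fin.cons_zero]
      exact (hω f0 hf0).1
    · rw [Fin.cons_succ]
      exact (hω (f l) (hf l)).1
  · refine Fin.cases ?_ (fun l => ?_) l
    · rw [Fin.cons_zero, (hω f0 hf0).2]
      exact hG0
    · rw [Fin.cons_succ, (hω (f l) (hf l)).2]
      exact hne l
  · have h1 : (fun l : Fin (Finset.univ.filter fun i => 0 < canDeg k (F i)).card =>
        (Fin.cons (ω f0) (fun l => ω (f l)) : Fin (_ + 1) → (Fin n → Derivation k L L) → L)
          l.succ E / (Fin.cons (ω f0) (fun l => ω (f l)) :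
            Fin (_ + 1) → (Fin n → Derivation k L L) → L) 0 E) = x := by
      funext l
      rw [Fin.cons_succ, Fin.cons_zero, (hω f0 hf0).2, (hω (f l) (hf l)).2, hxf l]
    rw [h1]
    exact hx

end

end Q36.HB
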