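import Pool.Agent.Q36.HB.Im

/-!
The numerical dimension of varieties dominated by products of curves.
-/

set_option autoImplicit false
set_option linter.overlappingInstances false
set_option linter.unusedSectionVars false

open Polynomial FF IsDedekindDomain IntermediateField
open Pool.Agent.W603.LV Pool.Agent.W619.PQ Pool.Agent.W619.PL
  Pool.Agent.W619.TW Pool.Agent.W619.X Pool.Agent.W619.Y Q36.PT Q36.SD

namespace Q36.HB

section

variable {k L M : Type} [Field k] [CharZero k] [IsAlgClosed k] [Field L] [Field M]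
  [Algebra k L] [Algebra k M] [Algebra L M] [IsScalarTower k L M] [FiniteDimensional L M]
  {n : ℕ} (F : Fin n → IntermediateField k M)
  [hF : ∀ i, IsFF k (F i)]

/-- **The upper bound for the numerical dimension.** -/
theorem num_dom (hnM : Algebra.trdeg k M = n) (hsup : ⨆ i, F i = ⊤)
    (hirr : ∀ i, ¬ ∃ t : F i, k⟮t⟯ = ⊤) :
    NumLe k L n (fun _ => False) {i | ¬ IsElliptic (F i)}.ncard := by
  have hessM : Algebra.EssFiniteType k M := ess_of_sup F hsup
  have hessL : Algebra.EssFiniteType k L := ess_below (K := M)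
  have hn : Algebra.trdeg k L = n := trdeg_below (K := M) hnM
  let e : L →+* fixedField (⊥ : Subgroup (M ≃ₐ[k] M)) :=
    (algebraMap L M).codRestrict (fixedField (⊥ : Subgroup (M ≃ₐ[k] M))) fun z g => by
      have hg := g.2
      rw [Subgroup.mem_bot] at hg
      change (g : M ≃ₐ[k] M) (algebraMap L M z) = _
      rw [hg]
      rfl
  let _ : Algebra L (fixedField (⊥ : Subgroup (M ≃ₐ[k] M))) := e.toAlgebra
  have t1 : IsScalarTower k L (fixedField (⊥ : Subgroup (M ≃ₐ[k] M))) :=
    IsScalarTower.of_algebraMap_eq fun c => by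
      apply Subtype.ext
      change algebraMap k M c = algebraMap L M (algebraMap k L c)
      rw [← IsScalarTower.algebraMap_apply]
  have t2 : IsScalarTower L (fixedField (⊥ : Subgroup (M ≃ₐ[k] M))) M :=
    IsScalarTower.of_algebraMap_eq fun c => rfl
  have f1 : FiniteDimensional L (fixedField (⊥ : Subgroup (M ≃ₐ[k] M))) :=
    Module.Finite.of_injective
      ((IsScalarTower.toAlgHom L (fixedField (⊥ : Subgroup (M ≃ₐ[k] M))) M).toLinearMap)
      Subtype.val_injective
  have h := pTRANS k L (fixedField (⊥ : Subgroup (M ≃ₐ[k] M))) n hn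
    (fun y hy => fin_over y hy) (fun _ => False)
  have hbd : BdUp (k := k) (K := L) (L := fixedField (⊥ : Subgroup (M ≃ₐ[k] M)))
      (fun _ => False) = fun _ => False := by
    funext w
    simp [BdUp]
  rw [hbd] at h
  obtain ⟨-, h2⟩ := up_bot n hnM F hF hsup
  exact h.2.2 _ (h2 hirr)

theorem ncard_elliptic (hirr : ∀ i, ¬ ∃ t : F i, k⟮t⟯ = ⊤) :
    (Finset.univ.filter fun i => 0 < canDeg k (F i)).card = {i | ¬ IsElliptic (F i)}.ncard := by
  classical
  rw [← Set.ncard_coe_finset]
  congr 1
  ext i
  simp only [Finset.coe_filter, Finset.mem_univ, true_and, Set.mem_ofPred_eq]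
  constructor
  · intro h1 h2
    have := canDeg_elliptic h2
    omega
  · intro h1
    exact canDeg_pos (hirr i) h1

theorem irr_of_gon {K : Type} [Field K] [Algebra k K] [IsFF k K]
    (h : ∀ b : K, Transcendental k b → 2 ≤ Module.finrank k⟮b⟯ K) : ¬ ∃ t : K, k⟮t⟯ = ⊤ := by
  rintro ⟨t, ht⟩
  have h1 := h t (transcendental_of_top ht)
  have h2 := IntermediateField.finrank_eq_one_iff_eq_top.2 ht
  omega

end

end Q36.HB
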