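import Pool.Agent.Q36.HB.Nu

/-!
Images of products of curves under primitive maps.
-/

set_option autoImplicit false
set_option linter.overlappingInstances false
set_option linter.unusedSectionVars false

open Polynomial FF IsDedekindDomain IntermediateField
open Pool.Agent.W602.GT Pool.Agent.W603.LV Pool.Agent.W619.PQ Pool.Agent.W619.PL
  Pool.Agent.W619.TW Pool.Agent.W619.X Pool.Agent.W619.Y Q36.PT Q36.SD

namespace Q36.HB

section

variable {k L M : Type} [Field k] [CharZero k] [IsAlgClosed k] [Field L] [Field M]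
  [Algebra k L] [Algebra k M] [Algebra L M] [IsScalarTower k L M] [FiniteDimensional L M]
  [Algebra.EssFiniteType k L] [Algebra.EssFiniteType k M]
  {n : ℕ} (F : Fin n → IntermediateField k M) [hF : ∀ i, IsFF k (F i)]

/-- **The genus of the generic fibre** if all coordinates but one factor through `X`. -/
theorem genus_zero_of_split (hn : Algebra.trdeg k L = n) (hsup : ⨆ i, F i = ⊤)
    (hpg : PgZero k L n)
    (hγ : ∀ i, ∀ b : F i, Transcendental k b → 2 ≤ Module.finrank k⟮b⟯ (F i))
    (i : Fin n) (hi : ∀ j, j ≠ i → ∀ z ∈ F j, z ∈ Set.range (algebraMap L M)) :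
    GenusZeroOver ((⨆ j : {j : Fin n // j ≠ i}, F j.1).comap
        (IsScalarTower.toAlgHom k L M)) := by
  classical
  have hnM : Algebra.trdeg k M = n := Pool.Agent.Y172.trdeg_up (K := L) hn
  obtain ⟨y, E, hy, hE⟩ := Pool.Agent.Y172.exists_crd (k := k) (K := L) hn
  choose E' hE' using fun i => Pool.Agent.Y172.exists_lift (L := M) hn (E i)
  have hEd := Pool.Agent.Y172.lift_dual hE hE'
  choose t ht using fun i => IsFF.exists_transcendental (k := k) (K := F i)
  have hbt := basis_of_iSup F hsup hnM t ht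
  let D0 : ∀ i, Derivation k (F i) (F i) := fun i => der k (F i)
  have hD0 : ∀ i, D0 i ≠ 0 := fun i => der_ne
  have hD0t : ∀ i, D0 i (t i) ≠ 0 := fun i => der_ne_zero (hD0 i) (ht i)
  have hD0tM : ∀ i, ((D0 i (t i) : F i) : M) ≠ 0 := fun i h => hD0t i (Subtype.ext h)
  let T : Matrix (Fin n) (Fin n) M := Matrix.of fun a b => E' a (t b : M)
  have hT : T.det ≠ 0 := jac_ne hbt hEd
  -- the relation
  have hrel0 : ∀ f : ∀ i, F i, (∀ i, RegDiff (D0 i) (f i)) →
      Algebra.trace L M ((∏ i, ((f i : M) / (D0 i (t i) : M))) * T.det) = 0 := fun f hf =>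
    trace_rel F hn hpg hD0 ht hf E E' hE'
  -- the genus of the generic fibre
  have hC := cur_MM F hsup hnM i
  have hEL : ∀ z ∈ MM F i, z ∈ Set.range (algebraMap L M) := by
    have h1 : MM F i ≤ (IsScalarTower.toAlgHom k L M).fieldRange := by
      refine iSup_le fun j z hz => ?_
      obtain ⟨y, hy⟩ := hi j.1 j.2 z hz
      exact ⟨y, hy⟩
    intro z hz
    obtain ⟨y, hy⟩ := h1 hz
    exact ⟨y, hy⟩
  -- the vector field
  have htL : ∀ b, ∃ z : L, b ≠ i → algebraMap L M z = (t b : M) := by
    intro b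
    by_cases hb : b = i
    · exact ⟨0, fun h => absurd hb h⟩
    · obtain ⟨z, hz⟩ := hi b hb (t b) (t b).2
      exact ⟨z, fun _ => hz⟩
  choose tL htL using htL
  let TL : Matrix (Fin n) (Fin n) L := Matrix.of fun a b => E a (tL b)
  let c : Fin n → L := fun a => TL.adjugate i a
  let D : Derivation k L L := ∑ a, c a • E a
  let D' : Derivation k M M := ∑ a, algebraMap L M (c a) • E' a
  have hD'e : ∀ z, D' z = ∑ a, algebraMap L M (c a) * E' a z := fun z =>
    Pool.Agent.Y172.sum_smul_apply _ _ _ _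
  have hDD : ∀ z, D' (algebraMap L M z) = algebraMap L M (D z) := by
    intro z
    rw [hD'e]
    have h1 : D z = ∑ a, c a * E a z := Pool.Agent.Y172.sum_smul_apply _ _ _ _
    rw [h1, map_sum]
    refine Finset.sum_congr rfl fun a _ => ?_
    rw [map_mul, hE']
  have hcr : ∀ v : Fin n → M, ∑ a, algebraMap L M (c a) * v a =
      ((TL.map (algebraMap L M)).updateCol i v).det := by
    intro v
    rw [← Matrix.cramer_apply, Matrix.cramer_eq_adjugate_mulVec]
    have h1 : (TL.map (algebraMap L M)).adjugate = TL.adjugate.map (algebraMap L M) :=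
      ((algebraMap L M).map_adjugate TL).symm
    rw [h1]
    rfl
  have hDtb : ∀ b, b ≠ i → D' (t b : M) = 0 := by
    intro b hb
    rw [hD'e, hcr]
    refine Matrix.det_zero_of_column_eq hb fun a => ?_
    rw [Matrix.updateCol_ne hb, Matrix.updateCol_self, Matrix.map_apply, ← htL b hb, hE']
    rfl
  have hDti : D' (t i : M) = T.det := by
    rw [hD'e, hcr]
    congr 1
    ext a b
    by_cases hb : b = i
    · rw [hb, Matrix.updateCol_self]
      rfl
    · rw [Matrix.updateCol_ne hb, Matrix.map_apply]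
      change algebraMap L M (E a (tL b)) = E' a (t b : M)
      rw [← hE', htL b hb]
  have hDE : ∀ z ∈ MM F i, D' z = 0 := by
    have h1 : MM F i ≤ kerD D' := by
      refine iSup_le fun j z hz => ?_
      obtain ⟨r, -, hr⟩ := ratio' (k := k) (K := M) (ht j.1) (⟨z, hz⟩ : F j.1)
      have h2 := hr D'
      change D' z = _ * D' (t j.1 : M) at h2
      rw [mem_kerD, h2, hDtb j.1 j.2, mul_zero]
    exact fun z hz => h1 hz
  -- the other factors
  have hfb : ∀ b, ∃ f : F b, f ≠ 0 ∧ RegDiff (D0 b) f := fun b =>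
    exists_reg_of_gon (hD0 b) fun z hz => hγ b z hz
  choose fb hfb0 hfbr using hfb
  have hrel : ∀ f : F i, RegDiff (D0 i) f →
      Algebra.trace L M ((f : M) / (D0 i (t i) : M) * D' (t i : M)) = 0 := by
    intro f hf
    have h1 := hrel0 (Function.update fb i f) (fun b => by
      by_cases hb : b = i
      · subst hb
        rw [Function.update_self]
        exact hf
      · rw [Function.update_of_ne hb]
        exact hfbr b)
    rw [← Finset.mul_prod_erase Finset.univ _ (Finset.mem_univ i), Function.update_self] at h1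
    have h2 : ∏ b ∈ Finset.univ.erase i,
        ((Function.update fb i f b : M) / (D0 b (t b) : M)) =
        ∏ b ∈ Finset.univ.erase i, ((fb b : M) / (D0 b (t b) : M)) := by
      refine Finset.prod_congr rfl fun b hb => ?_
      rw [Function.update_of_ne (Finset.ne_of_mem_erase hb)]
    rw [h2] at h1
    have h3 : ∏ b ∈ Finset.univ.erase i, ((fb b : M) / (D0 b (t b) : M)) ∈
        (IsScalarTower.toAlgHom k L M).fieldRange := by
      refine prod_mem fun b hb => ?_
      have hb' := Finset.ne_of_mem_erase hb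
      refine div_mem ?_ ?_
      · obtain ⟨z, hz⟩ := hi b hb' (fb b) (fb b).2
        exact ⟨z, hz⟩
      · obtain ⟨z, hz⟩ := hi b hb' (D0 b (t b)) (D0 b (t b)).2
        exact ⟨z, hz⟩
    obtain ⟨x, hx⟩ := h3
    change algebraMap L M x = _ at hx
    have hx0 : x ≠ 0 := by
      rintro rfl
      rw [map_zero] at hx
      have h4 := Finset.prod_ne_zero_iff.2 fun b (_ : b ∈ Finset.univ.erase i) =>
        div_ne_zero (fun h => hfb0 b (Subtype.ext h) : ((fb b : F b) : M) ≠ 0) (hD0tM b)
      exact h4 hx.symm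
    rw [← hx, ← hDti] at h1
    have h4 : (f : M) / (D0 i (t i) : M) * algebraMap L M x * D' (t i : M) =
        x • ((f : M) / (D0 i (t i) : M) * D' (t i : M)) := by
      rw [Algebra.smul_def]
      ring
    rw [h4, map_smul, smul_eq_mul] at h1
    exact (mul_eq_zero.1 h1).resolve_left hx0
  exact genus_zero_over hC hEL (hD0 i) (ht i) D D' hDD hDE (by rw [hDti]; exact hT)
    (fun b => (t b : M)) hbt i rfl (fun b hb => le_MM F hb (t b).2) hrel

end

section

variable {k L M : Type} [Field k] [CharZero k] [IsAlgClosed k] [Field L] [Field M]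
  [Algebra k L] [Algebra k M] [Algebra L M] [IsScalarTower k L M] [FiniteDimensional L M]
  {n : ℕ} (F : Fin n → IntermediateField k M) [hF : ∀ i, IsFF k (F i)]

/-- the equivalences -/
theorem tfae_gen (hnM : Algebra.trdeg k M = n) (hsup : ⨆ i, F i = ⊤)
    (h16 : PgZero k L n → ∃ i, (∀ j, j ≠ i → ∀ z ∈ F j, z ∈ Set.range (algebraMap L M)) ∧
        GenusZeroOver ((⨆ j : {j : Fin n // j ≠ i}, F j.1).comap
          (IsScalarTower.toAlgHom k L M))) :
    List.TFAE [¬ PlurigenusPos k L n 1, KodairaNeg k L n, ¬ IsPsef k L n (fun _ => False),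
      NumNeg k L n (fun _ => False), IsUniruled k L n,
      ∃ i, (∀ j, j ≠ i → ∀ z ∈ F j, z ∈ Set.range (algebraMap L M)) ∧
        GenusZeroOver ((⨆ j : {j : Fin n // j ≠ i}, F j.1).comap
          (IsScalarTower.toAlgHom k L M))] := by
  classical
  have hessM : Algebra.EssFiniteType k M := ess_of_sup F hsup
  have hessL : Algebra.EssFiniteType k L := ess_below (K := M)
  have hn : Algebra.trdeg k L = n := trdeg_below (K := M) hnM
  have heff : PlurigenusPos k L n 1 → IsPsef k L n (fun _ => False) := by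
    intro h1
    by_contra h2
    exact not_neg_of_pos le_rfl h1 (kodairaNeg_of_not_eff.1 fun h3 => h2 (psef_of_eff h3))
  tfae_have 1 → 6 := fun h1 => h16 (pgZero_iff.2 h1)
  tfae_have 6 → 5 := by
    rintro ⟨i, hi, h⟩
    refine uniruled_of_genusZero hn _ ?_ h
    -- the transcendence degree of the base
    have hC := cur_MM F hsup hnM i
    have hM : CharZero (MM F i) := charZero_M
    have h1 := trdeg_add_eq k (MM F i) (A := M)
    rw [hC.isFF.trdeg, hnM] at h1
    have hEL : MM F i ≤ (IsScalarTower.toAlgHom k L M).fieldRange := by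
      refine iSup_le fun j z hz => ?_
      obtain ⟨y, hy⟩ := hi j.1 j.2 z hz
      exact ⟨y, hy⟩
    let ef : ((MM F i).comap (IsScalarTower.toAlgHom k L M)) →ₐ[k] MM F i :=
      { toFun := fun z => ⟨algebraMap L M (z : L), z.2⟩
        map_one' := Subtype.ext (by simp)
        map_mul' := fun a b => Subtype.ext (by simp)
        map_zero' := Subtype.ext (by simp)
        map_add' := fun a b => Subtype.ext (by simp)
        commutes' := fun c => Subtype.ext (by
          change algebraMap L M (algebraMap k L c) = algebraMap k M c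
          rw [← IsScalarTower.algebraMap_apply]) }
    have hefb : Function.Bijective ef := by
      refine ⟨ef.toRingHom.injective, fun z => ?_⟩
      obtain ⟨y, hy⟩ := hEL z.2
      have hy' : algebraMap L M y = z := hy
      refine ⟨⟨y, ?_⟩, Subtype.ext hy'⟩
      change algebraMap L M y ∈ MM F i
      rw [hy']
      exact z.2
    have h2 := (AlgEquiv.ofBijective ef hefb).trdeg_eq
    change Algebra.trdeg k ((MM F i).comap (IsScalarTower.toAlgHom k L M)) + 1 = n
    rw [h2, h1]
  tfae_have 5 → 3 := fun h1 => (uniruled_neg n hn h1).1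
  tfae_have 5 → 4 := fun h1 => (uniruled_neg n hn h1).2
  tfae_have 3 → 2 := fun h1 => kodairaNeg_of_not_eff.1 fun h3 => h1 (psef_of_eff h3)
  tfae_have 2 → 1 := fun h1 h2 => not_neg_of_pos le_rfl h2 h1
  tfae_have 4 → 1 := by
    intro h1 h2
    obtain ⟨ω, h3, h4, D, hD⟩ := h2
    obtain ⟨m0, hm0⟩ := h1 {1}
    refine hm0 (1 * m0) (by omega) ?_
    refine ⟨fun _ => fun D => ω D ^ m0, ?_, fun _ => ⟨?_, ?_, ?_⟩⟩
    · refine LinearIndependent.of_subsingleton 0 ?_
      intro h5
      exact pow_ne_zero m0 hD (congrFun h5 D)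
    · intro A D
      change ω _ ^ m0 = _
      rw [h3 A D, mul_pow, ← pow_mul]
    · intro v hv _ D hD
      rcases h4 v hv D hD with h5 | h5
      · change Dom v {1} 1 (ω D ^ m0)
        rw [h5]
        rcases Nat.eq_zero_or_pos m0 with rfl | h6
        · exact Or.inr ⟨1, by simp, one_ne_zero, by rw [pow_zero, v.ord_one]; simp⟩
        · exact Or.inl (zero_pow (by omega))
      · exact Or.inr ⟨1, by simp, one_ne_zero, by
          rw [v.ord_pow, v.ord_one]
          have : (0 : ℤ) ≤ m0 * v.ord (ω D) := mul_nonneg (by positivity) h5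
          simpa using this⟩
    · intro v _ hB
      exact absurd hB id
  tfae_finish


/-- **Primitive maps.** -/
theorem tfae_prim (hn1 : 1 ≤ n) (hnM : Algebra.trdeg k M = n) (hsup : ⨆ i, F i = ⊤)
    {γ : Fin n → ℕ} (hγ2 : ∀ i, 2 ≤ γ i)
    (hγ : ∀ i, ∀ b : F i, Transcendental k b → γ i ≤ Module.finrank k⟮b⟯ (F i))
    (hprim : ∀ K : IntermediateField L M, K = ⊥ ∨ K = ⊤) (S : Finset (Fin n))
    (hS : ∀ j, j ∈ S ↔ ∃ z ∈ F j, z ∉ Set.range (algebraMap L M))
    (hr : S.card ≤ 1 ∨ Module.finrank L M ≤ 1 + ∑ j ∈ S, (γ j - 2)) :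
    List.TFAE [¬ PlurigenusPos k L n 1, KodairaNeg k L n, ¬ IsPsef k L n (fun _ => False),
      NumNeg k L n (fun _ => False), IsUniruled k L n,
      ∃ i, (∀ j, j ≠ i → ∀ z ∈ F j, z ∈ Set.range (algebraMap L M)) ∧
        GenusZeroOver ((⨆ j : {j : Fin n // j ≠ i}, F j.1).comap
          (IsScalarTower.toAlgHom k L M))] := by
  classical
  have hessM : Algebra.EssFiniteType k M := ess_of_sup F hsup
  have hessL : Algebra.EssFiniteType k L := ess_below (K := M)
  have hn : Algebra.trdeg k L = n := trdeg_below (K := M) hnM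
  refine tfae_gen F hnM hsup fun hpg => ?_
  rcases hr with hr | hr
  · obtain ⟨i, hi⟩ : ∃ i, ∀ j, j ≠ i → j ∉ S := by
      rcases S.eq_empty_or_nonempty with h | ⟨i, hi⟩
      · exact ⟨⟨0, hn1⟩, fun j _ => by rw [h]; exact Finset.notMem_empty j⟩
      · refine ⟨i, fun j hj hjS => hj (Finset.card_le_one.1 hr j hjS i hi)⟩
    have hi' : ∀ j, j ≠ i → ∀ z ∈ F j, z ∈ Set.range (algebraMap L M) := by
      intro j hj z hz
      by_contra h
      exact hi j hj ((hS j).2 ⟨z, hz, h⟩)
    exact ⟨i, hi', genus_zero_of_split F hn hsup hpg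
      (fun i b hb => (hγ2 i).trans (hγ i b hb)) i hi'⟩
  · exfalso
    refine pgZero_iff.1 hpg (genus_hall F hnM ?_ hγ2 hγ ∅ (by simp) fun Q _ => ?_)
    · rw [hsup]
      exact ⟨fun z => isAlgebraic_algebraMap (⟨z, trivial⟩ : (⊤ : IntermediateField k M))⟩
    · by_cases hSQ : S ⊆ Q
      · have h1 : Module.finrank (IntermediateField.adjoin L {z : M | ∃ j, j ∉ Q ∧ z ∈ F j}) M ≤
            Module.finrank L M := by
          have h2 := Module.finrank_mul_finrank L
            (IntermediateField.adjoin L {z : M | ∃ j, j ∉ Q ∧ z ∈ F j}) M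
          rw [← h2]
          exact Nat.le_mul_of_pos_left _ Module.finrank_pos
        have h3 : ∑ j ∈ S, (γ j - 2) ≤ ∑ j ∈ Q, (γ j - 2) :=
          Finset.sum_le_sum_of_subset hSQ
        omega
      · obtain ⟨j, hjS, hjQ⟩ := Finset.not_subset.1 hSQ
        obtain ⟨z, hz, hz2⟩ := (hS j).1 hjS
        have h1 : IntermediateField.adjoin L {z : M | ∃ j, j ∉ Q ∧ z ∈ F j} = ⊤ := by
          refine (hprim _).resolve_left fun h => hz2 ?_
          have h2 : z ∈ IntermediateField.adjoin L {z : M | ∃ j, j ∉ Q ∧ z ∈ F j} :=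
            IntermediateField.subset_adjoin L _ ⟨j, hjQ, hz⟩
          rw [h, IntermediateField.mem_bot] at h2
          exact h2
        rw [h1, IntermediateField.finrank_top]
        omega

end

end Q36.HB
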