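import Pool.Agent.Q36.HB.Tf
import Pool.Agent.Q36.HB.Eli

/-!
The derivatives of the traces.
-/

set_option autoImplicit false
set_option linter.overlappingInstances false
set_option linter.unusedSectionVars false

open Polynomial FF IsDedekindDomain IntermediateField
open Pool.Agent.W602.GT Pool.Agent.W603.LV Pool.Agent.W619.PQ Pool.Agent.W619.TW Q36.SD

namespace Q36.HB

/-- the Leibniz rule for products -/
theorem der_prod' {k M : Type} [Field k] [Field M] [Algebra k M] (d : Derivation k M M)
    {ι : Type} [DecidableEq ι] (s : Finset ι) (f : ι → M) :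
    d (∏ j ∈ s, f j) = ∑ i ∈ s, ∏ j ∈ s, (if j = i then d (f j) else f j) := by
  induction s using Finset.induction_on with
  | empty => simp
  | insert a s ha ih =>
    rw [Finset.prod_insert ha, d.leibniz, ih, Finset.sum_insert ha, Finset.prod_insert ha,
      if_pos rfl, smul_eq_mul, smul_eq_mul, add_comm, Finset.mul_sum]
    congr 1
    · rw [mul_comm]
      congr 1
      refine Finset.prod_congr rfl fun j hj => ?_
      rw [if_neg fun h : j = a => ha (h ▸ hj)]
    · refine Finset.sum_congr rfl fun i hi => ?_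
      rw [Finset.prod_insert ha, if_neg fun h : a = i => ha (h ▸ hi)]

section

variable {k L M : Type} [Field k] [CharZero k] [IsAlgClosed k] [Field L] [Field M]
  [Algebra k L] [Algebra k M] [Algebra L M] [IsScalarTower k L M] [FiniteDimensional L M]
  {n : ℕ} (F : Fin n → IntermediateField k M) [hF : ∀ i, IsFF k (F i)]

theorem der_ratio {i : Fin n} {D0 : Derivation k (F i) (F i)} {t : F i}
    (ht : Transcendental k t) (hD0 : D0 t ≠ 0) (d : Derivation k M M) (f : F i) :
    d (f : M) = d (t : M) / ((D0 t : F i) : M) * ((D0 f : F i) : M) := by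
  obtain ⟨r, h1, h2⟩ := ratio' (k := k) (K := M) ht f
  have h3 : d (f : M) = (r : M) * d (t : M) := h2 d
  have h4 : ((D0 t : F i) : M) ≠ 0 := fun h => hD0 (Subtype.ext h)
  rw [h3, h1 D0]
  have h5 : ((r * D0 t : F i) : M) = (r : M) * ((D0 t : F i) : M) := rfl
  rw [h5]
  field_simp

/-- **The relation given by a derivation.** -/
theorem relation {D0 : ∀ i, Derivation k (F i) (F i)} {t : ∀ i, F i}
    (ht : ∀ i, Transcendental k (t i)) (hD0 : ∀ i, D0 i (t i) ≠ 0) (J : M)
    (d : Derivation k L L) (d' : Derivation k M M)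
    (hd : ∀ f, d' (algebraMap L M f) = algebraMap L M (d f)) (a : L) {f : ∀ i, F i}
    (hf : d (Algebra.trace L M (J * ∏ i, (f i : M))) =
      a * Algebra.trace L M (J * ∏ i, (f i : M)))
    {Ω : Type} [Field Ω] [IsAlgClosed Ω] [Algebra k Ω] [Algebra L Ω] [IsScalarTower k L Ω]
    [Algebra M Ω] [IsScalarTower L M Ω] :
    ∑ σ : M →ₐ[L] Ω, (σ (d' J - algebraMap L M a * J) * ∏ j, res F j σ (f j) +
      ∑ i, σ (J * (d' (t i : M) / ((D0 i (t i) : F i) : M))) *
        ∏ j, res F j σ (if j = i then D0 j (f j) else f j)) = 0 := by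
  classical
  have hchar : CharZero L := charZero_of_injective_algebraMap (algebraMap k L).injective
  have hsep : Algebra.IsSeparable L M := inferInstance
  have h1 : Algebra.trace L M (d' (J * ∏ i, (f i : M)) -
      algebraMap L M a * (J * ∏ i, (f i : M))) = 0 := by
    rw [map_sub, trace_der d d' hd, hf, ← Algebra.smul_def, map_smul, smul_eq_mul, sub_self]
  have h2 : d' (J * ∏ i, (f i : M)) - algebraMap L M a * (J * ∏ i, (f i : M)) =
      (d' J - algebraMap L M a * J) * ∏ j, (f j : M) +
        ∑ i, (J * (d' (t i : M) / ((D0 i (t i) : F i) : M))) *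
          ∏ j, (if j = i then ((D0 j (f j) : F j) : M) else (f j : M)) := by
    rw [d'.leibniz, der_prod', smul_eq_mul, smul_eq_mul, Finset.mul_sum]
    have h3 : ∀ i, J * ∏ j, (if j = i then d' (f j : M) else (f j : M)) =
        (J * (d' (t i : M) / ((D0 i (t i) : F i) : M))) *
          ∏ j, (if j = i then ((D0 j (f j) : F j) : M) else (f j : M)) := by
      intro i
      rw [← Finset.mul_prod_erase Finset.univ _ (Finset.mem_univ i),
        ← Finset.mul_prod_erase Finset.univ (fun j => if j = i then ((D0 j (f j) : F j) : M)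
          else (f j : M)) (Finset.mem_univ i), if_pos rfl, if_pos rfl,
        der_ratio F (ht i) (hD0 i) d' (f i)]
      have h4 : ∏ j ∈ Finset.univ.erase i, (if j = i then d' (f j : M) else (f j : M)) =
          ∏ j ∈ Finset.univ.erase i, (if j = i then ((D0 j (f j) : F j) : M) else (f j : M)) := by
        refine Finset.prod_congr rfl fun j hj => ?_
        rw [if_neg (Finset.ne_of_mem_erase hj), if_neg (Finset.ne_of_mem_erase hj)]
      rw [h4]
      ring
    rw [Finset.sum_congr rfl fun i _ => h3 i]
    ring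
  rw [h2] at h1
  have h3 := trace_eq_sum_embeddings (K := L) (L := M)
    (x := (d' J - algebraMap L M a * J) * ∏ j, (f j : M) +
        ∑ i, (J * (d' (t i : M) / ((D0 i (t i) : F i) : M))) *
          ∏ j, (if j = i then ((D0 j (f j) : F j) : M) else (f j : M))) Ω
  rw [h1, map_zero] at h3
  rw [h3]
  refine Finset.sum_congr rfl fun σ _ => ?_
  rw [map_add, map_mul, map_prod, map_sum]
  congr 1
  refine Finset.sum_congr rfl fun i _ => ?_
  conv_rhs => rw [map_mul, map_prod]
  congr 1
  refine Finset.prod_congr rfl fun j _ => ?_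
  rw [res_apply]
  by_cases h : j = i
  · rw [if_pos h, if_pos h]
  · rw [if_neg h, if_neg h]

end

end Q36.HB
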