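import Pool.Agent.Q36.SD.El

/-!
Regular differentials with prescribed values and derivatives at finitely many embeddings.
-/

set_option autoImplicit false
set_option linter.overlappingInstances false
set_option linter.unusedSectionVars false

open Polynomial FF IsDedekindDomain IntermediateField
open Pool.Agent.W603.LV Pool.Agent.W619.PQ Q36.SD

namespace Q36.HB

section

variable {k F : Type} [Field k] [Field F] [Algebra k F] [CharZero k] [IsFF k F] [IsAlgClosed k]
  {Ω : Type} [Field Ω] [Algebra k Ω]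

/-- independence with multiplicities -/
theorem indep_mu {ι : Type} [Fintype ι] {D : Derivation k F F} (hD : D ≠ 0)
    (φ : ι → (F →ₐ[k] Ω))
    (hφ : Function.Injective φ) (n : ι → ℕ) (hn : ∀ i, n i = 1 ∨ n i = 2)
    (hγ : ∀ b : F, Transcendental k b → ∑ i, n i < Module.finrank k⟮b⟯ F)
    (c d : ι → Ω) (hd : ∀ i, n i = 1 → d i = 0)
    (h : ∀ f : F, RegDiff D f → ∑ i, (c i * φ i f + d i * φ i (D f)) = 0) (i : ι) :
    c i = 0 ∧ d i = 0 := by
  have h1 : ∀ i, d i = 0 := by
    intro i
    rcases hn i with h1 | h1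
    · exact hd i h1
    · exact (core hD φ hφ n hn hγ c d hd h i).1 h1
  refine ⟨indep hD φ hφ (fun b hb => ?_) c (fun f hf => ?_) i, h1 i⟩
  · refine lt_of_le_of_lt ?_ (hγ b hb)
    have h2 : ∑ _i : ι, 1 ≤ ∑ i, n i := Finset.sum_le_sum fun i _ => by
      rcases hn i with h | h <;> omega
    simpa using h2
  · rw [← h f hf]
    refine Finset.sum_congr rfl fun j _ => ?_
    rw [h1 j, zero_mul, add_zero]

/-- **Prescribed jets.** -/
theorem jets {ι : Type} [Fintype ι] {D : Derivation k F F} (hD : D ≠ 0) (φ : ι → (F →ₐ[k] Ω))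
    (hφ : Function.Injective φ) (n : ι → ℕ) (hn : ∀ i, n i = 1 ∨ n i = 2)
    (hγ : ∀ b : F, Transcendental k b → ∑ i, n i < Module.finrank k⟮b⟯ F)
    (v w : ι → Ω) (hw : ∀ i, n i = 1 → w i = 0) :
    ∃ (m : ℕ) (a : Fin m → Ω) (g : Fin m → F), (∀ l, RegDiff D (g l)) ∧
      (∀ i, ∑ l, a l * φ i (g l) = v i) ∧
      ∀ i, n i = 2 → ∑ l, a l * φ i (D (g l)) = w i := by
  classical
  obtain ⟨m, g, hg1, hg2⟩ := exists_basis hD
  let T : (Fin m → Ω) →ₗ[Ω] ((ι → Ω) × (ι → Ω)) :=
    { toFun := fun a => (fun i => ∑ l, a l * φ i (g l),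
        fun i => if n i = 2 then ∑ l, a l * φ i (D (g l)) else 0)
      map_add' := by
        intro a b
        refine Prod.ext ?_ ?_
        · funext i
          simp only [Pi.add_apply, add_mul, Finset.sum_add_distrib, Prod.fst_add]
        · funext i
          simp only [Pi.add_apply, add_mul, Finset.sum_add_distrib, Prod.snd_add]
          split_ifs <;> simp
      map_smul' := by
        intro c a
        refine Prod.ext ?_ ?_
        · funext i
          simp only [Pi.smul_apply, smul_eq_mul, RingHom.id_apply, Finset.mul_sum, mul_assoc,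
            Prod.smul_fst]
        · funext i
          simp only [Pi.smul_apply, smul_eq_mul, RingHom.id_apply, Finset.mul_sum, mul_assoc,
            Prod.smul_snd, mul_ite, mul_zero] }
  have hmem : (v, w) ∈ LinearMap.range T := by
    by_contra hne
    obtain ⟨f, hf0, hf⟩ := Submodule.exists_le_ker_of_notMem hne
    apply hf0
    have hfe : ∀ p : (ι → Ω) × (ι → Ω), f p =
        ∑ j, (p.1 j * f (Pi.single j 1, 0) + p.2 j * f (0, Pi.single j 1)) := by
      intro p
      have e1 : p = ∑ j, (p.1 j • ((Pi.single j 1 : ι → Ω), (0 : ι → Ω)) +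
          p.2 j • ((0 : ι → Ω), (Pi.single j 1 : ι → Ω))) := by
        refine Prod.ext ?_ ?_
        · funext i
          rw [Prod.fst_sum, Finset.sum_apply, Finset.sum_eq_single i]
          · simp
          · intro j _ hj
            simp [hj.symm]
          · intro h
            exact absurd (Finset.mem_univ i) h
        · funext i
          rw [Prod.snd_sum, Finset.sum_apply, Finset.sum_eq_single i]
          · simp
          · intro j _ hj
            simp [hj.symm]
          · intro h
            exact absurd (Finset.mem_univ i) h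
      conv_lhs => rw [e1]
      rw [map_sum]
      refine Finset.sum_congr rfl fun j _ => ?_
      rw [map_add, map_smul, map_smul, smul_eq_mul, smul_eq_mul]
    let d : ι → Ω := fun j => if n j = 2 then f (0, Pi.single j 1) else 0
    have h1 : ∀ y : F, RegDiff D y →
        ∑ j, (f (Pi.single j 1, 0) * φ j y + d j * φ j (D y)) = 0 := by
      intro y hy
      obtain ⟨a, rfl⟩ := hg2 y hy
      have h2 : f (T fun l => algebraMap k Ω (a l)) = 0 :=
        hf (LinearMap.mem_range_self T fun l => algebraMap k Ω (a l))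
      rw [hfe] at h2
      rw [← h2]
      refine Finset.sum_congr rfl fun j _ => ?_
      congr 1
      · rw [mul_comm]
        congr 1
        change _ = ∑ l, algebraMap k Ω (a l) * φ j (g l)
        rw [map_sum]
        refine Finset.sum_congr rfl fun l _ => ?_
        rw [map_smul, Algebra.smul_def]
      · change (if n j = 2 then f (0, Pi.single j 1) else 0) * _ =
          (if n j = 2 then ∑ l, algebraMap k Ω (a l) * φ j (D (g l)) else 0) * _
        split_ifs with h3
        · rw [mul_comm]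
          congr 1
          rw [map_sum, map_sum]
          refine Finset.sum_congr rfl fun l _ => ?_
          rw [D.map_smul, map_smul, Algebra.smul_def]
        · rw [zero_mul, zero_mul]
    have h2 := indep_mu hD φ hφ n hn hγ (fun j => f (Pi.single j 1, 0)) d (fun i hi => by
      simp only [d]
      rw [if_neg (by omega)]) h1
    rw [hfe]
    refine Finset.sum_eq_zero fun j _ => ?_
    rw [(h2 j).1, mul_zero, zero_add]
    rcases hn j with h3 | h3
    · change w j * _ = 0
      rw [hw j h3, zero_mul]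
    · have h4 : f (0, Pi.single j 1) = 0 := by
        have := (h2 j).2
        simp only [d, if_pos h3] at this
        exact this
      rw [h4, mul_zero]
  obtain ⟨a, ha⟩ := hmem
  refine ⟨m, a, g, hg1, fun i => ?_, fun i hi => ?_⟩
  · have := congrFun (congrArg Prod.fst ha) i
    exact this
  · have := congrFun (congrArg Prod.snd ha) i
    change (if n i = 2 then ∑ l, a l * φ i (D (g l)) else 0) = w i at this
    rwa [if_pos hi] at this

/-- the value `1` at `φ0` and jets `0` at `B` -/
theorem kill_val {D : Derivation k F F} (hD : D ≠ 0) (φ0 : F →ₐ[k] Ω) (B : Finset (F →ₐ[k] Ω))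
    (μ : (F →ₐ[k] Ω) → ℕ) (hμ : ∀ φ ∈ B, μ φ = 1 ∨ μ φ = 2) (hB : φ0 ∉ B)
    (hγ : ∀ b : F, Transcendental k b → ∑ φ ∈ B, μ φ + 1 < Module.finrank k⟮b⟯ F) :
    ∃ (m : ℕ) (a : Fin m → Ω) (g : Fin m → F), (∀ l, RegDiff D (g l)) ∧
      ∑ l, a l * φ0 (g l) = 1 ∧ (∀ φ ∈ B, ∑ l, a l * φ (g l) = 0) ∧
      ∀ φ ∈ B, μ φ = 2 → ∑ l, a l * φ (D (g l)) = 0 := by
  classical
  let ι := {φ : F →ₐ[k] Ω // φ ∈ insert φ0 B}
  have hne : ∀ φ ∈ B, φ ≠ φ0 := fun φ h1 h2 => hB (h2 ▸ h1)
  obtain ⟨m, a, g, h1, h2, h3⟩ := jets hD (fun j : ι => (j : F →ₐ[k] Ω)) Subtype.val_injective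
    (fun j => if (j : F →ₐ[k] Ω) = φ0 then 1 else μ j) (fun j => by
      split_ifs with h
      · exact Or.inl rfl
      · exact hμ _ ((Finset.mem_insert.1 j.2).resolve_left h)) (fun b hb => by
      refine lt_of_eq_of_lt ?_ (hγ b hb)
      rw [Finset.sum_coe_sort (insert φ0 B) (fun φ => if φ = φ0 then 1 else μ φ),
        Finset.sum_insert hB, if_pos rfl, add_comm]
      congr 1
      refine Finset.sum_congr rfl fun φ hφ => ?_
      rw [if_neg (hne φ hφ)])
    (fun j => if (j : F →ₐ[k] Ω) = φ0 then 1 else 0) (fun _ => 0) (fun _ _ => rfl)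
  refine ⟨m, a, g, h1, ?_, fun φ hφ => ?_, fun φ hφ hφ2 => ?_⟩
  · have := h2 ⟨φ0, Finset.mem_insert_self _ _⟩
    simpa using this
  · have := h2 ⟨φ, Finset.mem_insert_of_mem hφ⟩
    simp only [if_neg (hne φ hφ)] at this
    exact this
  · exact h3 ⟨φ, Finset.mem_insert_of_mem hφ⟩ (by simp only [if_neg (hne φ hφ)]; exact hφ2)

/-- the jet `(0, 1)` at `φ0` and jets `0` at `B` -/
theorem kill_jet {D : Derivation k F F} (hD : D ≠ 0) (φ0 : F →ₐ[k] Ω) (B : Finset (F →ₐ[k] Ω))
    (μ : (F →ₐ[k] Ω) → ℕ) (hμ : ∀ φ ∈ B, μ φ = 1 ∨ μ φ = 2) (hB : φ0 ∉ B)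
    (hγ : ∀ b : F, Transcendental k b → ∑ φ ∈ B, μ φ + 2 < Module.finrank k⟮b⟯ F) :
    ∃ (m : ℕ) (a : Fin m → Ω) (g : Fin m → F), (∀ l, RegDiff D (g l)) ∧
      ∑ l, a l * φ0 (g l) = 0 ∧ ∑ l, a l * φ0 (D (g l)) = 1 ∧
      (∀ φ ∈ B, ∑ l, a l * φ (g l) = 0) ∧
      ∀ φ ∈ B, μ φ = 2 → ∑ l, a l * φ (D (g l)) = 0 := by
  classical
  let ι := {φ : F →ₐ[k] Ω // φ ∈ insert φ0 B}
  have hne : ∀ φ ∈ B, φ ≠ φ0 := fun φ h1 h2 => hB (h2 ▸ h1)
  obtain ⟨m, a, g, h1, h2, h3⟩ := jets hD (fun j : ι => (j : F →ₐ[k] Ω)) Subtype.val_injective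
    (fun j => if (j : F →ₐ[k] Ω) = φ0 then 2 else μ j) (fun j => by
      split_ifs with h
      · exact Or.inr rfl
      · exact hμ _ ((Finset.mem_insert.1 j.2).resolve_left h)) (fun b hb => by
      refine lt_of_eq_of_lt ?_ (hγ b hb)
      rw [Finset.sum_coe_sort (insert φ0 B) (fun φ => if φ = φ0 then 2 else μ φ),
        Finset.sum_insert hB, if_pos rfl, add_comm]
      congr 1
      refine Finset.sum_congr rfl fun φ hφ => ?_
      rw [if_neg (hne φ hφ)])
    (fun _ => 0) (fun j => if (j : F →ₐ[k] Ω) = φ0 then 1 else 0) (fun j hj => by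
      rw [if_neg]
      intro h
      rw [if_pos h] at hj
      omega)
  refine ⟨m, a, g, h1, ?_, ?_, fun φ hφ => ?_, fun φ hφ hφ2 => ?_⟩
  · exact h2 ⟨φ0, Finset.mem_insert_self _ _⟩
  · have := h3 ⟨φ0, Finset.mem_insert_self _ _⟩ (by simp)
    simpa using this
  · exact h2 ⟨φ, Finset.mem_insert_of_mem hφ⟩
  · have := h3 ⟨φ, Finset.mem_insert_of_mem hφ⟩ (by simp only [if_neg (hne φ hφ)]; exact hφ2)
    simp only [if_neg (hne φ hφ)] at this
    exact this

/-- a curve which is neither rational nor elliptic has two regular differentials with a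
nonconstant quotient -/
theorem two_diff {D : Derivation k F F} (hD : D ≠ 0)
    (hγ : ∀ b : F, Transcendental k b → 2 ≤ Module.finrank k⟮b⟯ F) (hc : 0 < canDeg k F) :
    ∃ f g : F, RegDiff D f ∧ RegDiff D g ∧ f ≠ 0 ∧ Transcendental k (g / f) := by
  classical
  obtain ⟨P0, -⟩ := exists_place (k := k) (K := F)
  have hex : ∀ P : Place k F, ∃ f : F, f ≠ 0 ∧ RegDiff D f ∧ P.ord f = vo P D := by
    intro P
    obtain ⟨f, hf0, hf1, hf2⟩ := exists_diff_gon hD (fun Q => if Q = P then 1 else 0) {P}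
      (fun Q hQ => by
        by_contra h
        rw [Finset.mem_singleton] at h
        simp only [if_neg h] at hQ
        exact hQ rfl)
      (fun b hb => by
        have := hγ b hb
        simp only [Finset.sum_singleton, if_true]
        omega) P (by simp)
    simp only [if_true] at hf2
    refine ⟨f, hf0, fun Q => Or.inr ?_, by rw [hf2]; push_cast; ring⟩
    by_cases hQ : Q = P
    · rw [hQ, hf2]
      push_cast
      omega
    · have := hf1 Q hQ
      simp only [if_neg hQ] at this
      push_cast at this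
      omega
  obtain ⟨f, hf0, hfr, -⟩ := hex P0
  -- a zero of `f`
  obtain ⟨P, hP⟩ : ∃ P : Place k F, vo P D < P.ord f := by
    by_contra hcon
    push Not at hcon
    have h1 : ∀ P : Place k F, P.ord f = vo P D := fun P =>
      le_antisymm (hcon P) ((hfr P).resolve_left hf0)
    have h2 := canDeg_finset hD (finite_support (k := k) f).toFinset (fun P hP => by
      rw [(finite_support (k := k) f).mem_toFinset]
      change P.ord f ≠ 0
      rw [h1]
      exact hP)
    have h3 : ∑ P ∈ (finite_support (k := k) f).toFinset, vo P D = 0 := by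
      have h4 := sum_ord_finset (k := k) (K := F) f (finite_support (k := k) f).toFinset
        (fun P hP => by
          rw [(finite_support (k := k) f).mem_toFinset]
          exact hP)
      refine Eq.trans (Finset.sum_congr rfl fun P _ => ?_) h4
      exact (h1 P).symm
    omega
  obtain ⟨g, hg0, hgr, hg⟩ := hex P
  refine ⟨f, g, hfr, hgr, hf0, P.transcendental_of_ord_ne ?_⟩
  rw [P.ord_div hg0 hf0, hg]
  omega

/-- the jet `(0, 1)` at one embedding -/
theorem jet_one {D : Derivation k F F} (hD : D ≠ 0) (φ0 : F →ₐ[k] Ω) {f g : F}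
    (hf : RegDiff D f) (hg : RegDiff D g) (hf0 : f ≠ 0) (hfg : Transcendental k (g / f)) :
    ∃ (m : ℕ) (a : Fin m → Ω) (g : Fin m → F), (∀ l, RegDiff D (g l)) ∧
      ∑ l, a l * φ0 (g l) = 0 ∧ ∑ l, a l * φ0 (D (g l)) = 1 := by
  have h1 : f * D g - g * D f ≠ 0 := by
    have h2 := der_ne_zero hD hfg
    intro h3
    apply h2
    have h4 : D (f * (g / f)) = D g := by rw [mul_div_cancel₀ _ hf0]
    rw [D.leibniz, smul_eq_mul, smul_eq_mul] at h4
    have h5 : f * f * D (g / f) = f * D g - g * D f := by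
      rw [← h4]
      field_simp
      ring
    rw [h3] at h5
    exact (mul_eq_zero.1 h5).resolve_left (mul_ne_zero hf0 hf0)
  have h2 : φ0 (f * D g - g * D f) ≠ 0 := by
    rw [Ne, map_eq_zero]
    exact h1
  refine ⟨2, ![-φ0 g / φ0 (f * D g - g * D f), φ0 f / φ0 (f * D g - g * D f)], ![f, g], ?_, ?_, ?_⟩
  · intro l
    fin_cases l
    · exact hf
    · exact hg
  · simp only [Fin.sum_univ_two, Matrix.cons_val_zero, Matrix.cons_val_one]
    field_simp
    ring
  · simp only [Fin.sum_univ_two, Matrix.cons_val_zero, Matrix.cons_val_one]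
    rw [div_mul_eq_mul_div, div_mul_eq_mul_div, ← add_div, div_eq_one_iff_eq h2, map_sub, map_mul,
      map_mul]
    ring

end

end Q36.HB
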