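import Pool.Agent.Q36.SD.Ma

/-!
Traces of regular canonical forms and of derivations.
-/

set_option autoImplicit false
set_option linter.overlappingInstances false
set_option linter.unusedSectionVars false

open Polynomial FF IsDedekindDomain IntermediateField
open Pool.Agent.W602.GT Pool.Agent.W603.LV Pool.Agent.W619.PQ Pool.Agent.W619.TW
  Pool.Agent.Y172 Pool.Agent.Y692.NT

namespace Q36.HB

section

variable {k E L : Type} [Field k] [Field E] [Field L] [Algebra E L] [FiniteDimensional E L]
  [Algebra k E] [Algebra k L]

/-- the trace commutes with derivations -/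
theorem trace_der (d : Derivation k E E) (D : Derivation k L L)
    (hD : ∀ e : E, D (algebraMap E L e) = algebraMap E L (d e)) (y : L) :
    Algebra.trace E L (D y) = d (Algebra.trace E L y) := by
  classical
  let b := Module.finBasis E L
  let φ := Algebra.leftMulMatrix b
  let G : Matrix _ _ E := Matrix.of fun i j => b.repr (D (b j)) i
  have key : (φ y).map d = φ (D y) + φ y * G - G * φ y := by
    have hrep : ∀ z : L, ∀ j, z * b j = ∑ i, φ z i j • b i := by
      intro z j
      have := b.sum_repr (z * b j)
      rw [← this]
      apply Finset.sum_congr rfl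
      intro i _
      congr 1
      rw [Algebra.leftMulMatrix_eq_repr_mul]
    have hDb : ∀ j, D (b j) = ∑ i, G i j • b i := by
      intro j
      exact (b.sum_repr (D (b j))).symm
    have hDs : ∀ (e : E) (z : L), D (e • z) = d e • z + e • D z := by
      intro e z
      rw [Algebra.smul_def, Derivation.leibniz, hD, smul_eq_mul, smul_eq_mul, Algebra.smul_def,
        Algebra.smul_def]
      ring
    ext k j
    have h1 : D (y * b j) = ∑ i, ((φ y).map d + G * φ y) i j • b i := by
      rw [hrep y j, map_sum]
      simp_rw [hDs, hDb, Finset.smul_sum, Matrix.add_apply, add_smul, Finset.sum_add_distrib,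
        Matrix.map_apply, Matrix.mul_apply, Finset.sum_smul]
      congr 1
      rw [Finset.sum_comm]
      apply Finset.sum_congr rfl
      intro i _
      apply Finset.sum_congr rfl
      intro l _
      rw [smul_smul, mul_comm]
    have h2 : D (y * b j) = ∑ i, (φ (D y) + φ y * G) i j • b i := by
      rw [Derivation.leibniz, smul_eq_mul, smul_eq_mul, mul_comm (b j), hrep (D y) j, hDb,
        Finset.mul_sum]
      simp_rw [mul_smul_comm, hrep, Finset.smul_sum, Matrix.add_apply, add_smul,
        Finset.sum_add_distrib, Matrix.mul_apply, Finset.sum_smul]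
      rw [add_comm]
      congr 1
      rw [Finset.sum_comm]
      apply Finset.sum_congr rfl
      intro i _
      apply Finset.sum_congr rfl
      intro l _
      rw [smul_smul, mul_comm]
    rw [h1] at h2
    have h3 := congrArg (fun z => b.repr z k) h2
    simp only [Module.Basis.repr_sum_self] at h3
    rw [Matrix.add_apply] at h3
    rw [Matrix.sub_apply, ← h3]
    ring
  have h1 := congrArg Matrix.trace key
  rw [Matrix.trace_sub, Matrix.trace_add, Matrix.trace_mul_comm (φ y) G, add_sub_cancel_right]
    at h1
  rw [Algebra.trace_eq_matrix_trace b, Algebra.trace_eq_matrix_trace b]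
  change (φ (D y)).trace = d (φ y).trace
  rw [← h1, Matrix.trace, Matrix.trace, map_sum]
  rfl

end

section

variable {k K L : Type} [Field k] [CharZero k] [Field K] [Field L] [Algebra k K] [Algebra k L]
  [Algebra K L] [IsScalarTower k K L] [FiniteDimensional K L] [Algebra.EssFiniteType k K]
  [Algebra.EssFiniteType k L] {n : ℕ}

/-- **The trace of a regular canonical form is a regular canonical form.** -/
theorem trace_pluri (hn : Algebra.trdeg k K = n)
    (W : (Fin n → Derivation k L L) → L) (hW : IsPluri 1 W)
    (hreg : ∀ Q : Place k L, Divisorial n Q → RegAt Q W) :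
    ∃ ω : (Fin n → Derivation k K K) → K, IsPluri 1 ω ∧
      (∀ P : Place k K, Divisorial n P → RegAt P ω) ∧
      ∀ (E₀ : Fin n → Derivation k K K) (E₀' : Fin n → Derivation k L L),
        (∀ i f, E₀' i (algebraMap K L f) = algebraMap K L (E₀ i f)) →
        ω E₀ = Algebra.trace K L (W E₀') := by
  classical
  have hnL : Algebra.trdeg k L = n := trdeg_up (K := K) hn
  obtain ⟨y, E, hy, hE⟩ := exists_crd hn
  choose E' hE' using fun i => exists_lift (L := L) hn (E i)
  have hyL : IsTranscendenceBasis k (fun j => algebraMap K L (y j)) := hy.algebraMap_comp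
  have hEL := lift_dual hE hE'
  have hEv : (Matrix.of fun i j => E i (y j) : Matrix (Fin n) (Fin n) K).det = 1 := by
    have : (Matrix.of fun i j => E i (y j) : Matrix (Fin n) (Fin n) K) = 1 := by
      ext i j
      rw [Matrix.of_apply, hE, Matrix.one_apply]
    rw [this, Matrix.det_one]
  refine ⟨fun D => (Matrix.of fun i j => D i (y j) : Matrix (Fin n) (Fin n) K).det *
    Algebra.trace K L (W E'), ?_, ?_, ?_⟩
  · intro A D
    have e1 : (Matrix.of fun a b => (∑ j, A a j • D j) (y b)) =
        A * Matrix.of fun a b => D a (y b) := by
      ext a b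
      rw [Matrix.of_apply, Matrix.mul_apply, sum_smul_apply]
      rfl
    change (Matrix.of fun a b => (∑ j, A a j • D j) (y b)).det * _ = _
    rw [e1, Matrix.det_mul, pow_one, mul_assoc]
  · intro P hP G hG
    obtain ⟨yP, EP, i0, hl⟩ := exists_loc hn hP
    choose EP' hEP' using fun i => exists_lift (L := L) hn (EP i)
    obtain ⟨B, hB⟩ : ∃ B : Matrix (Fin n) (Fin n) K, B = Matrix.of fun i j => E i (yP j) :=
      ⟨_, rfl⟩
    have hC : (Matrix.of fun i j => G i (yP j) : Matrix (Fin n) (Fin n) K).det =
        (Matrix.of fun i j => G i (y j) : Matrix (Fin n) (Fin n) K).det * B.det := by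
      rw [← Matrix.det_mul]
      congr 1
      ext i j
      rw [Matrix.of_apply, Matrix.mul_apply, hB]
      have h1 := Pool.Agent.W73.PG.PULL.expand y hy E hE (G i)
      conv_lhs => rw [← h1]
      rw [sum_smul_apply]
      rfl
    have hWB : W E' = algebraMap K L B.det * W EP' := by
      have h1 := pluri_coord (hl.bas.algebraMap_comp (A := L)) (lift_dual hl.dual hEP') hW E'
      rw [h1, pow_one]
      congr 1
      rw [hB, RingHom.map_det]
      congr 1
      ext i j
      rw [Matrix.of_apply, RingHom.mapMatrix_apply, Matrix.map_apply, Matrix.of_apply]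
      exact hE' i (yP j)
    have hval : (Matrix.of fun i j => G i (y j) : Matrix (Fin n) (Fin n) K).det *
        Algebra.trace K L (W E') =
        (Matrix.of fun i j => G i (yP j) : Matrix (Fin n) (Fin n) K).det *
          Algebra.trace K L (W EP') := by
      rw [hC, hWB, ← Algebra.smul_def, map_smul, smul_eq_mul]
      ring
    change P.Reg ((Matrix.of fun i j => G i (y j) : Matrix (Fin n) (Fin n) K).det *
        Algebra.trace K L (W E'))
    rw [hval]
    refine P.reg_mul ?_ ?_
    · have h9 : Ge P 0 (Matrix.of fun i j => G i (yP j) : Matrix (Fin n) (Fin n) K).det :=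
        ge_det P _ _ (fun _ _ => 0) (fun a b => hG a _ (hl.reg b)) fun σ => by simp
      exact h9
    · refine Pool.Agent.Y692.NT.trace_reg P (W EP') fun Q e hQ => ?_
      have hQd : Divisorial n Q := divisorial_up hQ hP
      have h1 := down_ge hnL hQ hQd hl hEP' hW (c := 0) (fun G' hG' => by
        rcases hreg Q hQd G' hG' with h | h
        · exact Or.inl h
        · exact Or.inr (by exact_mod_cast h))
      rcases h1 with h1 | h1
      · exact Or.inl h1
      · right
        have h2 : ((1 - e : ℤ) : ℝ) ≤ (Q.ord (W EP') : ℝ) := by
          push_cast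
          push_cast at h1
          linarith
        exact_mod_cast h2
  · intro E₀ E₀' hE₀'
    have h3 : W E₀' =
        algebraMap K L (Matrix.of fun i j => E₀ i (y j) : Matrix (Fin n) (Fin n) K).det *
        W E' := by
      have h4 := pluri_coord hyL hEL hW E₀'
      rw [h4, pow_one]
      congr 1
      rw [RingHom.map_det]
      congr 1
      ext i j
      rw [Matrix.of_apply, RingHom.mapMatrix_apply, Matrix.map_apply, Matrix.of_apply]
      exact hE₀' i (y j)
    rw [h3, ← Algebra.smul_def, map_smul, smul_eq_mul]

end

end Q36.HB
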